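import Mathlib

/-!
# MP_4bcb19_an : critical points of curvature on graphs of real polynomials

For `p = X ^ 4 + 2 X ^ 2` (degree `n = 4`) the derivative of the signed curvature vanishes only
at `x = 0`; hence there is exactly one point of extreme curvature, and `1 < 3 = n - 1`.
-/

set_option autoImplicit false

open Polynomial

namespace Pool.Agent.Results.MP_4bcb19_an.OneVertex

/-- The signed curvature of the graph of `p` at `(x, p x)`. -/
noncomputable def curv (p : ℝ[X]) (x : ℝ) : ℝ :=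
  (derivative (derivative p)).eval x / (1 + ((derivative p).eval x) ^ 2) ^ (3 / 2 : ℝ)

/-- The abscissas of the points of extreme curvature: local maxima or minima of the curvature. -/
def extreme (p : ℝ[X]) : Set ℝ := {x | IsLocalMax (curv p) x ∨ IsLocalMin (curv p) x}

/-- The abscissas of the curvature-critical points. -/
def critical (p : ℝ[X]) : Set ℝ := {x | deriv (curv p) x = 0}

/-- The polynomial `X ^ 4 + 2 X ^ 2`. -/
noncomputable def p0 : ℝ[X] := X ^ 4 + C 2 * X ^ 2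

lemma deg_p0 : p0.natDegree = 4 := by
  rw [p0]
  compute_degree!

lemma d1 (x : ℝ) : (derivative p0).eval x = 4 * x ^ 3 + 4 * x := by
  simp [p0]
  ring

lemma d2 (x : ℝ) : (derivative (derivative p0)).eval x = 12 * x ^ 2 + 4 := by
  simp [p0]
  ring

lemma curv_eq (x : ℝ) :
    curv p0 x = (12 * x ^ 2 + 4) / (1 + (4 * x ^ 3 + 4 * x) ^ 2) ^ (3 / 2 : ℝ) := by
  rw [curv, d1, d2]

lemma hasDeriv (x : ℝ) :
    HasDerivAt (curv p0)
      (-24 * x * (56 * x ^ 6 + 88 * x ^ 4 + 40 * x ^ 2 + 7) *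
        (1 + (4 * x ^ 3 + 4 * x) ^ 2) ^ (1 / 2 : ℝ) /
        ((1 + (4 * x ^ 3 + 4 * x) ^ 2) ^ (3 / 2 : ℝ)) ^ 2) x := by
  have hfun : curv p0 = fun x : ℝ => (12 * x ^ 2 + 4) /
      (1 + (4 * x ^ 3 + 4 * x) ^ 2) ^ (3 / 2 : ℝ) := funext curv_eq
  rw [hfun]
  have hpos : 0 < 1 + (4 * x ^ 3 + 4 * x) ^ 2 := by positivity
  have h1 : HasDerivAt (fun x : ℝ => 12 * x ^ 2 + 4) (24 * x) x := by
    exact (((hasDerivAt_pow 2 x).const_mul 12).add_const (4 : ℝ)).congr_deriv
      (by push_cast; ring)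
  have h2 : HasDerivAt (fun x : ℝ => 1 + (4 * x ^ 3 + 4 * x) ^ 2)
      (2 * (4 * x ^ 3 + 4 * x) * (12 * x ^ 2 + 4)) x := by
    have h3 : HasDerivAt (fun x : ℝ => 4 * x ^ 3 + 4 * x) (12 * x ^ 2 + 4) x := by
      exact (((hasDerivAt_pow 3 x).const_mul 4).add ((hasDerivAt_id x).const_mul 4)).congr_deriv
        (by push_cast; ring)
    exact ((h3.pow 2).const_add 1).congr_deriv (by push_cast; ring)
  have h4 := h2.rpow_const (p := 3 / 2) (Or.inl hpos.ne')
  have h5 := h1.div h4 (Real.rpow_pos_of_pos hpos _).ne'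
  refine h5.congr_deriv ?_
  congr 1
  have h6 : (1 + (4 * x ^ 3 + 4 * x) ^ 2) ^ (3 / 2 : ℝ) =
      (1 + (4 * x ^ 3 + 4 * x) ^ 2) * (1 + (4 * x ^ 3 + 4 * x) ^ 2) ^ (1 / 2 : ℝ) := by
    rw [show (3 / 2 : ℝ) = 1 + 1 / 2 by norm_num, Real.rpow_add hpos, Real.rpow_one]
  rw [h6, show (3 / 2 - 1 : ℝ) = 1 / 2 by norm_num]
  ring

lemma crit_eq : critical p0 = {0} := by
  ext x
  rw [critical, Set.mem_ofPred_eq, (hasDeriv x).deriv, Set.mem_singleton_iff]
  have hpos : 0 < 1 + (4 * x ^ 3 + 4 * x) ^ 2 := by positivity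
  have h1 := Real.rpow_pos_of_pos hpos (1 / 2 : ℝ)
  have h2 := Real.rpow_pos_of_pos hpos (3 / 2 : ℝ)
  constructor
  · intro h
    rw [div_eq_zero_iff] at h
    rcases h with h | h
    · rcases mul_eq_zero.1 h with h | h
      · rcases mul_eq_zero.1 h with h | h
        · linarith
        · have : 0 < 56 * x ^ 6 + 88 * x ^ 4 + 40 * x ^ 2 + 7 := by positivity
          exact absurd h this.ne'
      · exact absurd h h1.ne'
    · exact absurd h (by positivity)
  · rintro rfl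
    simp

lemma ext_subset : extreme p0 ⊆ critical p0 := by
  rintro x (h | h)
  · exact h.deriv_eq_zero
  · exact h.deriv_eq_zero

/-- For the polynomial `X ^ 4 + 2 X ^ 2` of degree `n = 4` the signed curvature has exactly one
critical point, and so at most one (in fact exactly one) point of extreme curvature, which is
less than `n - 1 = 3`. -/
theorem result :
    ∃ p : ℝ[X], 2 < p.natDegree ∧ (critical p).encard = 1 ∧ (extreme p).encard = 1 ∧
      (1 : ℕ) < p.natDegree - 1 := by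
  refine ⟨p0, by rw [deg_p0]; norm_num, by rw [crit_eq]; simp, ?_, by rw [deg_p0]; norm_num⟩
  have h0 : (0 : ℝ) ∈ extreme p0 := by
    left
    refine Filter.Eventually.of_forall fun x => ?_
    rw [curv_eq, curv_eq]
    have hpos : 0 < 1 + (4 * x ^ 3 + 4 * x) ^ 2 := by positivity
    have h6 : (1 + (4 * x ^ 3 + 4 * x) ^ 2) ^ (3 / 2 : ℝ) =
        (1 + (4 * x ^ 3 + 4 * x) ^ 2) * (1 + (4 * x ^ 3 + 4 * x) ^ 2) ^ (1 / 2 : ℝ) := by
      rw [show (3 / 2 : ℝ) = 1 + 1 / 2 by norm_num, Real.rpow_add hpos, Real.rpow_one]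
    have h7 : 1 ≤ (1 + (4 * x ^ 3 + 4 * x) ^ 2) ^ (1 / 2 : ℝ) := by
      apply Real.one_le_rpow _ (by norm_num)
      nlinarith [sq_nonneg (4 * x ^ 3 + 4 * x)]
    have h8 : 12 * x ^ 2 + 4 ≤ 4 * (1 + (4 * x ^ 3 + 4 * x) ^ 2) := by
      nlinarith [sq_nonneg x, sq_nonneg (x ^ 2), sq_nonneg (x ^ 3)]
    have h9 : (1 + (4 * x ^ 3 + 4 * x) ^ 2) ≤ (1 + (4 * x ^ 3 + 4 * x) ^ 2) ^ (3 / 2 : ℝ) := by
      rw [h6]
      nlinarith
    have h10 : (12 * (0 : ℝ) ^ 2 + 4) / (1 + (4 * 0 ^ 3 + 4 * 0) ^ 2) ^ (3 / 2 : ℝ) = 4 := by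
      norm_num
    rw [h10, div_le_iff₀ (by positivity)]
    nlinarith
  have h1 : extreme p0 = {0} := by
    apply Set.Subset.antisymm
    · rw [← crit_eq]; exact ext_subset
    · rintro x hx
      rw [Set.mem_singleton_iff.1 hx]
      exact h0
  rw [h1]
  simp

end Pool.Agent.Results.MP_4bcb19_an.OneVertex
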